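import Pool.Agent.Helper63.PG.Alg

/-! # Project PG: module TEQ (time stamps of adjacent vertices with equal label agree) -/

set_option autoImplicit false

namespace Pool.Agent.Helper89.PG

open Pool.Agent.Helper63.PG Pool.Agent.Helper63.OC Pool.Agent.Helper24.OCM

theorem TEQ_mid {e y y' : ℕ} (h1 : 2 ^ e ∣ y + 1) (h2 : 2 ^ e ∣ y' + 1) (hlt : y < y')
    (n1 : ¬ 2 ^ (e + 1) ∣ y + 1) (n2 : ¬ 2 ^ (e + 1) ∣ y' + 1) :
    ∃ z, y < z ∧ z < y' ∧ 2 ^ (e + 1) ∣ z + 1 := by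
  obtain ⟨a, ha⟩ := h1
  obtain ⟨b, hb⟩ := h2
  have hpos : 0 < 2 ^ e := by positivity
  have oa : a % 2 = 1 := by
    by_contra hc
    have : 2 ∣ a := by omega
    obtain ⟨c, hc'⟩ := this
    exact n1 ⟨c, by rw [ha, hc']; ring⟩
  have ob : b % 2 = 1 := by
    by_contra hc
    have : 2 ∣ b := by omega
    obtain ⟨c, hc'⟩ := this
    exact n2 ⟨c, by rw [hb, hc']; ring⟩
  have hab : a < b := by
    by_contra hc
    have : 2 ^ e * b ≤ 2 ^ e * a := Nat.mul_le_mul_left _ (by omega)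
    omega
  have hab2 : a + 2 ≤ b := by omega
  have h3 : 2 ^ e * (a + 1) = y + 1 + 2 ^ e := by rw [ha]; ring
  have h4 : 2 ^ e * (a + 1) + 2 ^ e ≤ y' + 1 := by
    rw [hb]
    calc 2 ^ e * (a + 1) + 2 ^ e = 2 ^ e * (a + 2) := by ring
      _ ≤ 2 ^ e * b := Nat.mul_le_mul_left _ hab2
  have ea : 2 ∣ a + 1 := by omega
  obtain ⟨c, hc⟩ := ea
  refine ⟨y + 2 ^ e, by omega, by omega, c, ?_⟩
  have : y + 2 ^ e + 1 = 2 ^ e * (a + 1) := by omega
  rw [this, hc]; ring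

theorem hTEQ {H : SimpleGraph ℕ}
    (hT : ∀ v, hasp H v → (fn H v < v ∧ H.Adj v (fn H v)) ∧ fn H v ≤ tau H v ∧ tau H v < v ∧
      2 ^ te H v ∣ tau H v + 1 ∧ te H v ≤ Nat.log 2 v ∧
      (∀ e y, fn H v ≤ y → y < v → 2 ^ e ∣ y + 1 → e ≤ te H v)) {u v : ℕ} (huv : u < v)
    (hadj : H.Adj u v) (hl : lab2 H u = lab2 H v) :
    hasp H u ∧ hasp H v ∧ tau H u = tau H v := by
  classical
  have hv : hasp H v := ⟨u, huv, hadj.symm⟩
  have hu : hasp H u := by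
    by_contra hc
    unfold lab2 at hl
    rw [if_neg hc, if_pos hv] at hl
    omega
  have he : te H u = te H v := by
    unfold lab2 at hl
    rw [if_pos hu, if_pos hv] at hl
    omega
  refine ⟨hu, hv, ?_⟩
  obtain ⟨-, a1, a2, a3, -, a4⟩ := hT u hu
  obtain ⟨-, b1, b2, b3, -, b4⟩ := hT v hv
  have hfn : fn H v ≤ u := Nat.sInf_le ⟨huv, hadj.symm⟩
  have n1 : ¬ 2 ^ (te H v + 1) ∣ tau H u + 1 := by
    intro hd
    have := a4 _ _ a1 a2 hd
    omega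
  have n2 : ¬ 2 ^ (te H v + 1) ∣ tau H v + 1 := by
    intro hd
    have := b4 _ _ b1 b2 hd
    omega
  rw [he] at a3
  by_contra hne
  rcases Nat.lt_or_gt_of_ne hne with hlt | hlt
  · obtain ⟨z, z1, z2, z3⟩ := TEQ_mid a3 b3 hlt n1 n2
    by_cases hz : fn H v ≤ z
    · have := b4 _ z hz (by omega) z3
      omega
    · have := a4 _ z (by omega) (by omega) z3
      omega
  · obtain ⟨z, z1, z2, z3⟩ := TEQ_mid b3 a3 hlt n2 n1
    have := b4 _ z (by omega) (by omega) z3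
    omega

end Pool.Agent.Helper89.PG
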